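import Pool.Agent.H83.VG.Cls
import Pool.Agent.H44.V0P.Lab
import Pool.Agent.H36.T4.Fre0
import Pool.Agent.H72.T4C.S

/-!
# The near path of the slope-one places: no look-ahead from the far path

`near_law`: law level. `num_near`: for any code `O` which is few bits given the record of the window `a`
and the far path, the record of the window `x` says little more about `O` given the near path.
-/

set_option autoImplicit false

namespace Pool.NN24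

open Finset Real MvPolynomial
open Pool.Agent.H49.Ent Pool.Agent.H32.Dense
open Pool.STK hiding pr2
open Pool.KA Pool.KSAT Pool.K2S Pool.PB Pool.S6C
open Pool.GEN Pool.CHT Pool.CHX Pool.ISO Pool.LA91 Pool.AVG71 Pool.AVG5 Pool.D2F2 Pool.AVG57
open Pool.RCD Pool.AVG96 Pool.V0F Pool.OWN68
open Pool.KVA (MI)
open Pool.VT83 (VB NlqI vlaw_gen)
open Pool.VG83 (qtt few_tt few0_tt nlq_tt mx_ev cl_cR)
open Pool.T4C72 (BoxT)
open Pool.V0Q (LDP)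

section law

variable {Ω : Type} [Fintype Ω] {p : Ω → ℝ}

variable {ζ ρ₁ ρ₂ ρ₃ υ ξ₁ ξ₂ ξ₃ ξ₄ ξ₅ ξ₆ ξ₇ α β 𝒪 𝒰 : Type} {zw : Ω → ζ} {Rj : Ω → ρ₁} {Rx : Ω → ρ₂}
  {R' : Ω → ρ₃} {y : Ω → υ} {Xq : Ω → ξ₁} {Xp : Ω → ξ₂} {Uq : Ω → ξ₃} {Up : Ω → ξ₇} {N1 : Ω → ξ₄}
  {N2 : Ω → ξ₅} {XJ : Ω → ξ₆} {Fv Gf κ : ℝ}

/-- **No look-ahead given the near path**, for any code which is few bits given the far path. -/
theorem near_law (V : VLaw2 p zw Rj Rx R' y Xq Xp Uq Up N1 N2 XJ Fv Gf κ) {nr : Ω → α}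
    {fr : Ω → β} (h1 : Det p nr (fun ω => (Xq ω, Uq ω))) (h2 : Det p (fun ω => (Xq ω, Uq ω)) nr)
    {e₁ : ℝ} (hfr : CH p fr (fun ω => (Xp ω, Up ω)) ≤ e₁) (O : Ω → 𝒪) (U : Ω → 𝒰) :
    CH p O (fun ω => (U ω, (zw ω, (nr ω, y ω)))) ≤ CH p O (fun ω => (U ω, (Rx ω, (nr ω, y ω)))) +
      CH p (fun ω => (O ω, U ω)) (fun ω => (zw ω, (fr ω, y ω))) + e₁ + 25 * κ := by
  have h0 := V.h0
  have hm0 := V.mx
  rw [Pool.AVG71.MI_eq h0] at hm0
  obtain ⟨Z, hZ⟩ : ∃ Z : Ω → _, Z = fun ω => ((Xq ω, Uq ω), (zw ω, y ω)) := ⟨_, rfl⟩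
  obtain ⟨Fr, hFr⟩ : ∃ Fr : Ω → _, Fr = fun ω => (Xp ω, Up ω) := ⟨_, rfl⟩
  have hm : CH p Rx Z - CH p Rx (fun ω => (Fr ω, Z ω)) ≤ 25 * κ := by
    rw [hZ, hFr]
    exact hm0
  rw [← hFr] at hfr
  have a1 : CH p O (fun ω => (U ω, (zw ω, (nr ω, y ω)))) ≤ CH p O (fun ω => (U ω, Z ω)) := by
    refine CH_mono_cond h0 fun ω ω' hω hω' e => ?_
    simp only [Prod.mk.injEq] at e
    have e1 := Prod.ext_iff.mp (h1 ω ω' hω hω' e.2.2.1)
    rw [hZ]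
    exact Prod.ext e.1 (Prod.ext (Prod.ext e1.1 e1.2) (Prod.ext e.2.1 e.2.2.2))
  have a2 : CH p O (fun ω => (Rx ω, (U ω, Z ω))) ≤
      CH p O (fun ω => (U ω, (Rx ω, (nr ω, y ω)))) := by
    refine CH_mono_cond h0 fun ω ω' hω hω' e => ?_
    rw [hZ] at e
    simp only [Prod.mk.injEq] at e
    have e1 : nr ω = nr ω' := h2 ω ω' hω hω' (Prod.ext e.2.2.1.1 e.2.2.1.2)
    exact Prod.ext e.2.1 (Prod.ext e.1 (Prod.ext e1 e.2.2.2.2))
  have c1 := CH_chain2 h0 O Rx (fun ω => (U ω, Z ω))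
  have c2 := CH_chain2 h0 Rx O (fun ω => (U ω, Z ω))
  have c3 := CH_swap2 h0 O Rx (fun ω => (U ω, Z ω))
  have c4 : CH p Rx (fun ω => (U ω, Z ω)) ≤ CH p Rx Z :=
    CH_mono_cond h0 fun ω ω' _ _ e => (Prod.ext_iff.mp e).2
  obtain ⟨OU, hOU⟩ : ∃ OU : Ω → 𝒪 × 𝒰, OU = fun ω => (O ω, U ω) := ⟨_, rfl⟩
  have d1 := Pool.V0F.CH_ge h0 Rx OU (fun ω => (Fr ω, Z ω))
  have d2 : CH p Rx (fun ω => (OU ω, (Fr ω, Z ω))) ≤ CH p Rx (fun ω => (O ω, (U ω, Z ω))) :=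
    CH_mono_cond h0 fun ω ω' _ _ e => by
      rw [hOU] at e
      simp only [Prod.mk.injEq] at e
      exact Prod.ext e.1.1 (Prod.ext e.1.2 e.2.2)
  have f1 := CH_le_add h0 OU fr (fun ω => (Fr ω, Z ω))
  have f2 : CH p fr (fun ω => (Fr ω, Z ω)) ≤ CH p fr Fr :=
    CH_mono_cond h0 fun ω ω' _ _ e => (Prod.ext_iff.mp e).1
  have f3 : CH p OU (fun ω => (fr ω, (Fr ω, Z ω))) ≤
      CH p OU (fun ω => (zw ω, (fr ω, y ω))) := CH_mono_cond h0 fun ω ω' _ _ e => by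
    rw [hZ] at e
    simp only [Prod.mk.injEq] at e
    exact Prod.ext e.2.2.2.1 (Prod.ext e.1 e.2.2.2.2)
  rw [← hOU]
  linarith

end law

section ev

variable {m : ℕ}

/-- The free velocities, from a later window. -/
theorem fri_left {S : PCl m}
    (hpos : ∀ (τ : ℝ) (J : ℕ) (F : Fam m J) (A : F.Ω → Prop), S.St τ J F A → 0 < Pe F.p A)
    {c : ℕ → Fin m} {r : ℕ} {sp : ℕ → ℝ → ℝ} {b : ℝ} {P : Fin r → ℝ} {w a x' κ ε : ℝ}
    (h : FrI S c r sp b P w x' κ) (hwa : w ≤ a) (ha : a ≤ 1) (hε : 0 < ε) :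
    FrI S c r sp b P a x' (κ + ε) := by
  obtain ⟨k, hk, e₀, he₀, H⟩ := h
  refine ⟨min k ε, lt_min hk hε, e₀, he₀, fun K => ?_⟩
  refine Bas.mono 0 ((H K).and (pos_bas hpos)) ?_
  rintro J - F A ⟨H1, hA⟩ V z V' z' hz hz' u hu
  have h0 := (isLaw_cond F.isLaw hA).nonneg
  have hJ0 : (0 : ℝ) ≤ J := Nat.cast_nonneg J
  have h1 := H1 _ (cR F A w) _ z' (mx_cR hA w hk.le)
    ⟨hz'.1, fun W x hx => (hz'.2 W x hx).trans
      (mul_le_mul_of_nonneg_right (min_le_left _ _) hJ0)⟩ u hu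
  obtain ⟨χ, hχ⟩ := vg_mono hwa ha J F
  have h2 := hz.2 _ (cR F A w) ((cl_cR F A w).mono ⟨fun x => x, fun _ _ => rfl⟩
    ⟨χ, fun ω _ => hχ ω⟩)
  have h3 := mul_le_mul_of_nonneg_right (min_le_right k ε) hJ0
  -- `CH u (z, W) ≤ CH u (cR w, W) + CH (cR w) z`... the finer record knows more
  have h4 := CH_le_add h0 u (cR F A w) (fun ω => (z ω, F.W ω))
  have h5 : CH (Pool.Agent.H49.Ent.cond F.p A True) (cR F A w) (fun ω => (z ω, F.W ω)) ≤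
      CH (Pool.Agent.H49.Ent.cond F.p A True) (cR F A w) z :=
    CH_mono_cond h0 fun ω ω' _ _ e => (Prod.ext_iff.mp e).1
  have h6 : CH (Pool.Agent.H49.Ent.cond F.p A True) u (fun ω => (cR F A w ω, (z ω, F.W ω))) ≤
      CH (Pool.Agent.H49.Ent.cond F.p A True) u (fun ω => (cR F A w ω, F.W ω)) :=
    CH_mono_cond h0 fun ω ω' _ _ e => Prod.ext (Prod.ext_iff.mp e).1
      (Prod.ext_iff.mp (Prod.ext_iff.mp e).2).2
  linarith

/-- The positions and the velocities are the jets. -/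
theorem det_jet2 {J : ℕ} {F : Fam m J} {c : ℕ → Fin m} {r w : ℕ}
    {H : LnT F → ℕ → MvPolynomial (Option (Fin m)) ℝ} {p : F.Ω → ℝ} (N : ℕ → ℕ → ℝ) :
    Det p (fun ω => (jh F c r w H (fun l => N l 0) ω, jv F c r w H (fun l => N l 1) ω))
      (jet2 F c w H 0 (0 + r) N) := by
  intro ω ν _ _ e
  have e1 := Prod.ext_iff.mp e
  funext l j'
  unfold jet2
  by_cases h : 0 ≤ l ∧ l < 0 + r ∧ j' ≤ 1
  · rw [if_pos h, if_pos h]
    have hl : l < r := by omega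
    have hj : j' = 0 ∨ j' = 1 := by omega
    rcases hj with rfl | rfl
    · have e2 : jh F c r w H (fun l => N l 0) ω l 0 = jh F c r w H (fun l => N l 0) ν l 0 :=
        congrFun (congrFun e1.1 l) 0
      unfold jh at e2
      rw [if_pos ⟨hl, rfl⟩, if_pos ⟨hl, rfl⟩] at e2
      exact e2
    · exact congrFun e1.2 ⟨l, hl⟩
  · rw [if_neg h, if_neg h]

/-- Fewer digits of the jets. -/
theorem jet2_fr {J : ℕ} {F : Fam m J} {c : ℕ → Fin m} {r w : ℕ}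
    {H : LnT F → ℕ → MvPolynomial (Option (Fin m)) ℝ} {p : F.Ω → ℝ} (hp : IsLaw p)
    {N : ℕ → ℕ → ℝ} {n P : ℕ → ℝ} (h0 : ∀ l < r, N l 0 ≤ n l) (h1 : ∀ l < r, N l 1 ≤ P l) :
    CH p (jet2 F c w H 0 (0 + r) N) (fun ω => (jh F c r w H n ω, jv F c r w H P ω)) ≤
      2 * (r * Real.log 5) := by
  have hn := hp.nonneg
  have hJ0 : (0 : ℝ) ≤ J := Nat.cast_nonneg J
  obtain ⟨x0, hx0⟩ : ∃ x0 : F.Ω → Fin r → ℝ, x0 = fun ω (l : Fin r) =>
    ojet F (c l) 0 (H (slam F w ω) l) ω := ⟨_, rfl⟩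
  obtain ⟨x1, hx1⟩ : ∃ x1 : F.Ω → Fin r → ℝ, x1 = fun ω (l : Fin r) =>
    ojet F (c l) 1 (H (slam F w ω) l) ω := ⟨_, rfl⟩
  obtain ⟨V0, hV0⟩ : ∃ V0 : F.Ω → Fin r → ℤ, V0 = fun ω (l : Fin r) =>
    ⌊(2 : ℝ) ^ (N l 0 * J) * x0 ω l⌋ := ⟨_, rfl⟩
  obtain ⟨V1, hV1⟩ : ∃ V1 : F.Ω → Fin r → ℤ, V1 = fun ω (l : Fin r) =>
    ⌊(2 : ℝ) ^ (N l 1 * J) * x1 ω l⌋ := ⟨_, rfl⟩
  obtain ⟨C, hC⟩ : ∃ C : F.Ω → (ℕ → ℕ → ℤ) × (Fin r → ℤ), C = fun ω =>
    (jh F c r w H n ω, jv F c r w H P ω) := ⟨_, rfl⟩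
  rw [← hC]
  have a1 : CH p (jet2 F c w H 0 (0 + r) N) C ≤ CH p (fun ω => (V0 ω, V1 ω)) C := by
    refine CH_mono_left hn fun ω ν hω hν e => ?_
    have e0 : (V0 ω, V1 ω) = (V0 ν, V1 ν) := (Prod.ext_iff.mp e).1
    have e1 : V0 ω = V0 ν := (Prod.ext_iff.mp e0).1
    have e2 : V1 ω = V1 ν := (Prod.ext_iff.mp e0).2
    refine det_jet2 (p := p) N ω ν hω hν (Prod.ext ?_ ?_)
    · funext l j'
      show jh F c r w H (fun l => N l 0) ω l j' = jh F c r w H (fun l => N l 0) ν l j'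
      unfold jh
      by_cases h : l < r ∧ j' = 0
      · rw [if_pos h, if_pos h]
        have e3 : V0 ω ⟨l, h.1⟩ = V0 ν ⟨l, h.1⟩ := congrFun e1 _
        rw [hV0, hx0] at e3
        exact e3
      · rw [if_neg h, if_neg h]
    · funext l
      have e3 : V1 ω l = V1 ν l := congrFun e2 _
      rw [hV1, hx1] at e3
      exact e3
  have a2 := CH_subadd hn V0 V1 C
  have b0 := Pool.T4N.fl_coarse hp x0 (fun l : Fin r => (2 : ℝ) ^ (N l 0 * J))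
    (fun l : Fin r => (2 : ℝ) ^ (n l * J)) (fun l => by positivity) (fun l =>
      Real.rpow_le_rpow_of_exponent_le (by norm_num)
        (mul_le_mul_of_nonneg_right (h0 l l.2) hJ0))
  have b1 := Pool.T4N.fl_coarse hp x1 (fun l : Fin r => (2 : ℝ) ^ (N l 1 * J))
    (fun l : Fin r => (2 : ℝ) ^ (P l * J)) (fun l => by positivity) (fun l =>
      Real.rpow_le_rpow_of_exponent_le (by norm_num)
        (mul_le_mul_of_nonneg_right (h1 l l.2) hJ0))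
  have a3 : CH p V0 C ≤ r * Real.log 5 := by
    rw [hV0]
    refine le_trans (CH_mono_cond hn fun ω ν _ _ e => ?_) b0
    rw [hC] at e
    have e0 : jh F c r w H n ω = jh F c r w H n ν := (Prod.ext_iff.mp e).1
    funext l
    have e1 : jh F c r w H n ω l 0 = jh F c r w H n ν l 0 := congrFun (congrFun e0 l) 0
    unfold jh at e1
    rw [if_pos ⟨l.2, rfl⟩, if_pos ⟨l.2, rfl⟩] at e1
    rw [hx0]
    exact e1
  have a4 : CH p V1 C ≤ r * Real.log 5 := by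
    rw [hV1]
    refine le_trans (CH_mono_cond hn fun ω ν _ _ e => ?_) b1
    rw [hC] at e
    have e0 : jv F c r w H P ω = jv F c r w H P ν := (Prod.ext_iff.mp e).2
    funext l
    have e1 : jv F c r w H P ω l = jv F c r w H P ν l := congrFun e0 l
    unfold jv at e1
    rw [hx1]
    exact e1
  linarith

/-- **No look-ahead given the near path**: for every code `O` (and `U`) which is few bits given the
record of the window `a` and the far path (`Nf` digits), the record of the window `x` says little more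
about `O` given the near path (`Nn` digits, natural at `x`). -/
theorem num_near {S : PCl m} {c : ℕ → Fin m} {k f D : ℕ} {sn sp : ℕ → ℝ → ℝ} {G : Set ℝ}
    {s h b o w u Λ φ e : ℝ} {lam : ℝ → ℝ} (B : BoxT S c k f D sn sp G s h b o w u Λ φ e lam)
    {w₁ : ℚ} {a x x' Y : ℝ} (h1 : w ≤ w₁) (h2 : (w₁ : ℝ) ≤ a) (h3 : a ≤ x) (h4 : x ≤ x')
    (hx : x ∈ G) (hx' : x' ∈ G) (h5 : x' ≤ w + Λ * u) (hY0 : 0 ≤ Y)
    (h6 : Y + (k + 1) * u ≤ Λ * u) (h7 : 60 * ((k : ℝ) + 1) * φ ≤ Λ * u) (he : 0 ≤ e)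
    {Nn Nf : ℕ → ℕ → ℝ} (n0 : ∀ l < k, sn l x ≤ Nn l 0 ∧ Nn l 0 ≤ sn l x')
    (n1 : ∀ l < k, Nn l 1 ≤ sn l w - w + Y) (f0 : ∀ l < k, Nf l 0 ≤ sn l x')
    (f1 : ∀ l < k, Nf l 1 ≤ sn l w - w + Y) (D' f' : ℕ) (E : ℝ) {π₀ ε : ℝ} (hπ : 0 < π₀)
    (hε : 0 < ε) :
    ∃ κ₀ : ℝ, 0 < κ₀ ∧ Bas S (fun J F A => ∀ Hb H : LnT F → ℕ → MvPolynomial (Option (Fin m)) ℝ,
      LDP F c k f' D' b a φ E sn A Hb H → ∀ B : F.Ω → Prop, Sub B A →
      π₀ * Pe F.p A ≤ Pe F.p B → ∀ (V₁ : Type) (za : F.Ω → V₁) (V₂ : Type) (zb : F.Ω → V₂),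
      Mx (fun J F => ptr F J) (vg a) κ₀ F B za → Mx (fun J F => ptr F J) (vg x) κ₀ F B zb →
      ∀ (𝒪 𝒰 : Type) (O : F.Ω → 𝒪) (U : F.Ω → 𝒰),
      CH (Pool.Agent.H49.Ent.cond F.p B True) O
          (fun ω => (U ω, (za ω, (jet2 F c ⌊a * J⌋₊ H 0 k Nn ω, F.W ω)))) ≤
        CH (Pool.Agent.H49.Ent.cond F.p B True) O
          (fun ω => (U ω, (zb ω, (jet2 F c ⌊a * J⌋₊ H 0 k Nn ω, F.W ω)))) +
        CH (Pool.Agent.H49.Ent.cond F.p B True) (fun ω => (O ω, U ω))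
          (fun ω => (za ω, (jet2 F c ⌊a * J⌋₊ H 0 k Nf ω, F.W ω))) +
        (500 * (k : ℝ) ^ 2 * φ + 25 * e * u + ε) * J) := by
  have L : Lad S c k sn G b o φ := B.lad.toLadR.lad
  have hφ := L.φ0
  have hu := B.u0
  have hk0 : (0 : ℝ) ≤ k := Nat.cast_nonneg k
  have hkφ : 0 ≤ (k : ℝ) * φ := by positivity
  have hΛ : 0 ≤ Λ * u := by
    have : 0 ≤ ((k : ℝ) + 1) * u := by positivity
    linarith
  have q1 := B.bw
  have q2 := B.wo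
  have q3 := B.o1
  have hba : b ≤ a := by linarith
  have hbx : b ≤ x := hba.trans h3
  have hbx' : b ≤ x' := hbx.trans h4
  have hxo : x' ≤ o := h5.trans q2
  have ha1 : a ≤ 1 := by linarith
  have hb1 : b ≤ 1 := by linarith
  -- the levels
  have l1 : ∀ i < k, sn i x' ≤ 1 - Λ * u + φ := fun i hi => by
    have e1 := (abs_le.1 (L.fl i hi x' hx' hbx' hxo)).2
    have e2 := (B.room i (by omega)).2
    linarith
  have N : VB k sn G b o φ (fun l => sn l b - φ) (fun l => Nn l 0) (fun l => sn l x') a x x x'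
      0 := by
    refine ⟨hx, hx, hx', hba, h3, h3, h4, h4, hxo, ?_, ?_, fun i _ => le_rfl,
      fun i hi => (n0 i hi).1, fun i hi => (n0 i hi).1, fun i hi => (n0 i hi).2,
      fun i _ => le_rfl, fun i _ => by linarith, fun i hi => ?_, ⟨fun i hi => ?_,
      fun i hi l hl => ?_⟩⟩
    · linarith
    · linarith
    · have := l1 i hi
      linarith
    · have e1 := abs_le.1 (lad_fl L hx' hbx' hxo i hi b L.bG le_rfl hbx')
      linarith [e1.1]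
    · have e1 := abs_le.1 (lad_fl L hx' hbx' hxo i hi b L.bG le_rfl hbx')
      have e2 := abs_le.1 (lad_fl L hx' hbx' hxo l (by omega) b L.bG le_rfl hbx')
      have e3 := l1 l (by omega)
      linarith [e1.1, e2.2]
  -- the velocities
  have hq : ∀ l : ℕ, ∃ q : ℚ, sn l w - w + Y + (k - l) * u < q ∧
      (q : ℝ) < sn l w - w + Y + (k - l) * u + u / 4 := fun l =>
    exists_rat_btwn (by linarith)
  choose Pq hPq using hq
  obtain ⟨ε', hε'⟩ : ∃ ε' : ℝ, ε' = ε / 100 := ⟨_, rfl⟩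
  have hε0 : 0 < ε' := by rw [hε']; positivity
  have hfr0 : FrI S c k sp b (fun i : Fin k => (Pq i : ℝ)) w₁ x' (e * u) := by
    refine B.free (fun i => Pq i) w₁ x' h1 hx' (by linarith) h5 (fun i => ?_) fun l i hli => ?_
    · have e1 := hPq i
      have e2 : (1 : ℝ) ≤ k - (i : ℕ) := by
        have : (i : ℕ) + 1 ≤ k := i.2
        have : (((i : ℕ) + 1 : ℕ) : ℝ) ≤ k := by exact_mod_cast this
        push_cast at this
        linarith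
      have e3 := mul_le_mul_of_nonneg_right e2 hu.le
      have e4 : ((k : ℝ) - (i : ℕ)) * u ≤ k * u := by
        refine mul_le_mul_of_nonneg_right ?_ hu.le
        have : (0 : ℝ) ≤ (i : ℕ) := Nat.cast_nonneg _
        linarith
      constructor
      · linarith [e1.1]
      · linarith [e1.2]
    · have e1 := hPq i
      have e2 := hPq l
      have e3 : (l : ℝ) + 1 ≤ (i : ℕ) := by
        have : (l : ℕ) + 1 ≤ i := hli
        exact_mod_cast this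
      have e4 := mul_le_mul_of_nonneg_right e3 hu.le
      linarith [e1.2, e2.1]
  have hfr := fri_left L.pos hfr0 h2 ha1 hε0
  obtain ⟨ka, hka, ea, hea, Ha⟩ := vlaw_gen L N (few_tt L.pos _ _ _ _) (few0_tt L.pos _ _ _) hfr
    (nlq_tt L.pos c k a x) (by positivity) le_rfl ε' hε0
  obtain ⟨P, hP⟩ : ∃ P : ℕ → ℝ, P = fun l => (Pq l : ℝ) := ⟨_, rfl⟩
  obtain ⟨Ma, Ja, hMa⟩ := ld_jh m D' k (fun l => Nn l 0) (b := b) (E := E) L.b0 hb1
  obtain ⟨Mb, Jb, hMb⟩ := ld_jh m D' k (fun l => sn l x') (b := b) (E := E) L.b0 hb1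
  obtain ⟨Md, Jd, hMd⟩ := ld_jv m D' k P (b := b) (E := E) L.b0 hb1
  obtain ⟨M, hM⟩ : ∃ M : ℕ, M = Ma + Mb + Md := ⟨_, rfl⟩
  obtain ⟨J₁, hJ₁⟩ := exists_nat_gt (2 * (k * Real.log 5) / ε')
  refine ⟨ka, hka, Bas.mono (Ja + Jb + Jd + J₁) ((Pool.VG83.bas_ev (Ha M) hπ).and (pos_bas L.pos)) ?_⟩
  rintro J hJ F A ⟨H1, hA⟩ Hb H LDh B' hB hm V₁ za V₂ zb hza hzb 𝒪 𝒰 O U
  have hLD := LDh.toLD
  have hPB : 0 < Pe F.p B' := lt_of_lt_of_le (mul_pos hπ hA) hm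
  have hcl := isLaw_cond F.isLaw hPB
  have h0 := hcl.nonneg
  have hJ0 : (0 : ℝ) ≤ J := Nat.cast_nonneg J
  have hl5 : 0 < Real.log 5 := Real.log_pos (by norm_num)
  have r1 := hMa M (by omega) J (by omega) hLD ea hea.le
  have r2 := hMb M (by omega) J (by omega) hLD ea hea.le
  have r4 := hMd M (by omega) J (by omega) hLD B.spb ea hea.le
  have hlog : 2 * (k * Real.log 5) ≤ ε' * J := by
    have e1 : (J₁ : ℝ) ≤ J := by
      have : J₁ ≤ J := by omega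
      exact_mod_cast this
    have e2 := hJ₁.le.trans e1
    rw [div_le_iff₀ hε0] at e2
    linarith
  obtain ⟨κ, hκ⟩ : ∃ κ : ℝ, κ = (k * 0 + 20 * (k : ℝ) ^ 2 * φ + (e * u + ε') + 0 + ε') * J :=
    ⟨_, rfl⟩
  have hκε : 2 * (ε' * J) ≤ κ := by
    rw [hκ]
    have e1 : 0 ≤ (20 * (k : ℝ) ^ 2 * φ + e * u) * J := by positivity
    linarith
  have hεJ : 0 ≤ ε' * J := by positivity
  have hkl : 0 ≤ k * Real.log 5 := by positivity
  have hZ2 := CH_jhs hcl (F := F) (c := c) (r := k) (w := ⌊a * J⌋₊) (H := H)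
    (n := fun l => Nn l 0) (n' := fun l => sn l x') (fun l hl => (n0 l hl).2)
    (fun ω => (jh F c k ⌊a * J⌋₊ H (fun l => Nn l 0) ω, (za ω, F.W ω)))
    (fun ω ν _ _ e => (Prod.ext_iff.mp e).1)
  have hZ3 := CH_jh hcl (F := F) (c := c) (r := k) (w := ⌊a * J⌋₊) (H := H)
    (n := fun l => sn l x') (n' := fun l => Nn l 0) (d := 0) (fun l hl => by
      have := mul_le_mul_of_nonneg_right (n0 l hl).2 hJ0
      linarith) le_rfl
    (fun ω => (jh F c k ⌊a * J⌋₊ H (fun l => sn l x') ω, (za ω, F.W ω)))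
    (fun ω ν _ _ e => (Prod.ext_iff.mp e).1)
  rw [zero_mul, zero_add] at hZ3
  have hPP : P = fun l => ((fun i : ℕ => (Pq i : ℝ)) l) := hP
  -- the near velocities
  have hv1 : ∀ l < k, Nn l 1 ≤ P l := fun l hl => by
    rw [hP]
    have e1 := (hPq l).1
    have e2 : 0 ≤ ((k : ℝ) - l) * u := by
      refine mul_nonneg ?_ hu.le
      have : ((l + 1 : ℕ) : ℝ) ≤ k := by exact_mod_cast hl
      push_cast at this
      linarith
    have e3 := n1 l hl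
    show Nn l 1 ≤ (Pq l : ℝ)
    linarith
  have hv2 : ∀ l < k, Nf l 1 ≤ P l := fun l hl => by
    rw [hP]
    have e1 := (hPq l).1
    have e2 : 0 ≤ ((k : ℝ) - l) * u := by
      refine mul_nonneg ?_ hu.le
      have : ((l + 1 : ℕ) : ℝ) ≤ k := by exact_mod_cast hl
      push_cast at this
      linarith
    have e3 := f1 l hl
    show Nf l 1 ≤ (Pq l : ℝ)
    linarith
  have hUq : CH (Pool.Agent.H49.Ent.cond F.p B' True) (jv F c k ⌊a * J⌋₊ H fun l => Nn l 1)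
      (jv F c k ⌊a * J⌋₊ H P) ≤ k * Real.log 5 := by
    have e1 := Pool.T4N.fl_coarse hcl (fun ω (l : Fin k) =>
      ojet F (c l) 1 (H (slam F ⌊a * J⌋₊ ω) l) ω) (fun l : Fin k => (2 : ℝ) ^ (Nn l 1 * J))
      (fun l : Fin k => (2 : ℝ) ^ (P l * J)) (fun l => by positivity) (fun l =>
        Real.rpow_le_rpow_of_exponent_le (by norm_num)
          (mul_le_mul_of_nonneg_right (hv1 l l.2) hJ0))
    exact e1
  have V := H1 B' hB hm _ za _ zb _ zb _ (cR F B' x') hza hzb hzb (mx_cR hPB x' hka.le)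
    (jh F c k ⌊a * J⌋₊ H (fun l => Nn l 0)) (jh F c k ⌊a * J⌋₊ H (fun l => sn l x'))
    (jv F c k ⌊a * J⌋₊ H P) (fun _ => ()) (fun _ => ())
    ((qJets m c 0 k 0 _ _ _).sub hB r1) ((qJets m c 0 k 0 _ _ _).sub hB r2)
    (by
      have r5 := (qG m c k sp b (fun i : Fin k => P i)).sub hB r4
      rw [hP] at r5 ⊢
      exact r5) trivial trivial _
    (jv F c k ⌊a * J⌋₊ H fun l => Nn l 1) κ (by rw [hκ]) (by linarith)
    (hZ2.trans (by linarith)) (hZ3.trans (by linarith))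
  have hz : (0 + k : ℕ) = k := Nat.zero_add k
  have key := near_law V (nr := jet2 F c ⌊a * J⌋₊ H 0 (0 + k) Nn)
    (fr := jet2 F c ⌊a * J⌋₊ H 0 (0 + k) Nf)
    (fun ω ν hω hν e => Prod.ext (jet2_jh Nn ω ν hω hν e) (jet2_jv Nn ω ν hω hν e))
    (det_jet2 Nn) (jet2_fr hcl f0 hv2) O U
  rw [hz] at key
  have e9 : 25 * κ + 2 * (k * Real.log 5) ≤ (500 * (k : ℝ) ^ 2 * φ + 25 * e * u + ε) * J := by
    rw [hκ]
    have e10 : ε = 100 * ε' := by rw [hε']; ring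
    rw [e10]
    linarith
  linarith

/-- **The same for the canonical records of the event**, on its parts. -/
theorem num_nearA {S : PCl m} {c : ℕ → Fin m} {k f D : ℕ} {sn sp : ℕ → ℝ → ℝ} {G : Set ℝ}
    {s h b o w u Λ φ e : ℝ} {lam : ℝ → ℝ} (B : BoxT S c k f D sn sp G s h b o w u Λ φ e lam)
    {w₁ : ℚ} {a x x' Y : ℝ} (h1 : w ≤ w₁) (h2 : (w₁ : ℝ) ≤ a) (h3 : a ≤ x) (h4 : x ≤ x')
    (hx : x ∈ G) (hx' : x' ∈ G) (h5 : x' ≤ w + Λ * u) (hY0 : 0 ≤ Y)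
    (h6 : Y + (k + 1) * u ≤ Λ * u) (h7 : 60 * ((k : ℝ) + 1) * φ ≤ Λ * u) (he : 0 ≤ e)
    {Nn Nf : ℕ → ℕ → ℝ} (n0 : ∀ l < k, sn l x ≤ Nn l 0 ∧ Nn l 0 ≤ sn l x')
    (n1 : ∀ l < k, Nn l 1 ≤ sn l w - w + Y) (f0 : ∀ l < k, Nf l 0 ≤ sn l x')
    (f1 : ∀ l < k, Nf l 1 ≤ sn l w - w + Y)
    (ha : ∃ η : ℝ, RNum S (fun J F => ptr F J) (vg a) η)
    (hb : ∃ η : ℝ, RNum S (fun J F => ptr F J) (vg x) η) (D' f' : ℕ) (E : ℝ) {π₀ ε : ℝ}
    (hπ : 0 < π₀) (hε : 0 < ε) :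
    Bas S (fun J F A => ∀ Hb H : LnT F → ℕ → MvPolynomial (Option (Fin m)) ℝ,
      LDP F c k f' D' b a φ E sn A Hb H → ∀ B : F.Ω → Prop, Sub B A →
      π₀ * Pe F.p A ≤ Pe F.p B → ∀ (𝒪 𝒰 : Type) (O : F.Ω → 𝒪) (U : F.Ω → 𝒰),
      CH (Pool.Agent.H49.Ent.cond F.p B True) O
          (fun ω => (U ω, (cR F A a ω, (jet2 F c ⌊a * J⌋₊ H 0 k Nn ω, F.W ω)))) ≤
        CH (Pool.Agent.H49.Ent.cond F.p B True) O
          (fun ω => (U ω, (cR F A x ω, (jet2 F c ⌊a * J⌋₊ H 0 k Nn ω, F.W ω)))) +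
        CH (Pool.Agent.H49.Ent.cond F.p B True) (fun ω => (O ω, U ω))
          (fun ω => (cR F A a ω, (jet2 F c ⌊a * J⌋₊ H 0 k Nf ω, F.W ω))) +
        (500 * (k : ℝ) ^ 2 * φ + 25 * e * u + ε) * J) := by
  have L : Lad S c k sn G b o φ := B.lad.toLadR.lad
  obtain ⟨κ₀, hκ₀, H⟩ := num_near B h1 h2 h3 h4 hx hx' h5 hY0 h6 h7 he n0 n1 f0 f1 D' f' E hπ hε
  obtain ⟨ηa, hηa⟩ := ha
  obtain ⟨ηb, hηb⟩ := hb
  refine Bas.mono 0 ((H.and (mx_ev L.pos hηa hκ₀ hπ)).and (mx_ev L.pos hηb hκ₀ hπ)) ?_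
  rintro J - F A ⟨⟨H1, H2⟩, H3⟩ Hb Hh LDh B' hB hm 𝒪 𝒰 O U
  exact H1 Hb Hh LDh B' hB hm _ (cR F A a) _ (cR F A x) (H2 B' hB hm) (H3 B' hB hm) 𝒪 𝒰 O U

end ev

end Pool.NN24
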